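import Mathlib

set_option autoImplicit false

open Finset

namespace Pool.Agent.H504D

variable {k : Type} [Field k]

/-- the Hénon map `(x, y) ↦ (y, F(y) - δ x)` -/
noncomputable def hen (F : Polynomial k) (δ : k) (P : k × k) : k × k := (P.2, F.eval P.2 - δ * P.1)

section count

variable (F : Polynomial k) (δ : k) (S : Finset (k × k)) (n : ℕ)

/-- coordinate functions on `S` -/
noncomputable def Yc (t : ℕ) : S → k := fun P => ((hen F δ)^[t] (P : k × k)).1

lemma Yc_rec (t : ℕ) (P : S) : Yc F δ S (t + 2) P = F.eval (Yc F δ S (t + 1) P) - δ * Yc F δ S t P := by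
  unfold Yc
  rw [Function.iterate_succ_apply', Function.iterate_succ_apply']
  rfl

lemma Yc_per (hS : ∀ P ∈ S, (hen F δ)^[n] P = P) (t : ℕ) : Yc F δ S (t + n) = Yc F δ S t := by
  ext P
  unfold Yc
  rw [Function.iterate_add_apply, hS P P.2]

lemma Yc_mod (hS : ∀ P ∈ S, (hen F δ)^[n] P = P) (t : ℕ) : Yc F δ S (t % n) = Yc F δ S t := by
  have key : ∀ s t, Yc F δ S (t + n * s) = Yc F δ S t := by
    intro s t
    induction s with
    | zero => simp
    | succ s ih => rw [show t + n * (s + 1) = t + n * s + n by ring, Yc_per F δ S n hS, ih]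
  conv_rhs => rw [← Nat.mod_add_div t n]
  exact (key _ _).symm

/-- monomials in the coordinate functions -/
noncomputable def mon (α : Fin n →₀ ℕ) : S → k := α.prod fun i e => Yc F δ S i ^ e

lemma mon_add (α β : Fin n →₀ ℕ) : mon F δ S n (α + β) = mon F δ S n α * mon F δ S n β := by
  unfold mon
  exact Finsupp.prod_add_index' (fun _ => pow_zero _) (fun _ _ _ => pow_add _ _ _)

lemma mon_single (i : Fin n) (e : ℕ) : mon F δ S n (Finsupp.single i e) = Yc F δ S i ^ e := by
  unfold mon
  exact Finsupp.prod_single_index (pow_zero _)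

/-- total degree -/
def dg (α : Fin n →₀ ℕ) : ℕ := ∑ i, α i

lemma dg_add (α β : Fin n →₀ ℕ) : dg n (α + β) = dg n α + dg n β := by
  unfold dg
  rw [← Finset.sum_add_distrib]
  rfl

lemma dg_single (i : Fin n) (e : ℕ) : dg n (Finsupp.single i e) = e := by
  unfold dg
  rw [Finset.sum_eq_single i]
  · simp
  · intro j _ hj; simp [Finsupp.single_apply, hj.symm]
  · simp

/-- the small monomials -/
noncomputable def sm (d : ℕ) (α : Fin n → Fin d) : S → k :=
  mon F δ S n (Finsupp.equivFunOnFinite.symm fun i => (α i : ℕ))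

theorem mon_mem (hn : 0 < n) (hd : 2 ≤ F.natDegree) (hS : ∀ P ∈ S, (hen F δ)^[n] P = P) (D : ℕ) :
    ∀ α : Fin n →₀ ℕ, dg n α ≤ D →
      mon F δ S n α ∈ Submodule.span k (Set.range (sm F δ S n F.natDegree)) := by
  have hsmall : ∀ α : Fin n →₀ ℕ, (∀ i, α i < F.natDegree) →
      mon F δ S n α ∈ Submodule.span k (Set.range (sm F δ S n F.natDegree)) := by
    intro α hα
    apply Submodule.subset_span
    refine ⟨fun i => ⟨α i, hα i⟩, ?_⟩
    unfold sm
    congr 1
    ext i; simp
  have hlead : F.leadingCoeff ≠ 0 := by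
    rw [Polynomial.leadingCoeff_ne_zero]
    rintro rfl
    simp at hd
  induction D with
  | zero =>
    intro α hα
    apply hsmall
    intro i
    have h1 : α i ≤ dg n α := Finset.single_le_sum (f := fun i => α i) (fun _ _ => Nat.zero_le _) (mem_univ i)
    omega
  | succ D ih =>
    intro α hα
    by_cases hbig : ∀ i, α i < F.natDegree
    · exact hsmall α hbig
    · push Not at hbig
      obtain ⟨i, hi⟩ := hbig
      set β := α - Finsupp.single i F.natDegree with hβ
      have hαβ : α = β + Finsupp.single i F.natDegree := by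
        rw [hβ, tsub_add_cancel_of_le]
        rwa [Finsupp.single_le_iff]
      have hdg : dg n β + F.natDegree = dg n α := by
        conv_rhs => rw [hαβ]
        rw [dg_add, dg_single]
      -- the relation
      have hrel : F.leadingCoeff • (Yc F δ S i ^ F.natDegree) =
          Yc F δ S ((i + 1) % n) + δ • Yc F δ S ((i + (n - 1)) % n) -
            ∑ j ∈ range F.natDegree, F.coeff j • Yc F δ S i ^ j := by
        rw [Yc_mod F δ S n hS, Yc_mod F δ S n hS]
        ext P
        have h1 := Yc_rec F δ S (i + (n - 1)) P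
        rw [show (i : ℕ) + (n - 1) + 1 = i + n by omega, Yc_per F δ S n hS,
          show (i : ℕ) + (n - 1) + 2 = i + 1 + n by omega, Yc_per F δ S n hS] at h1
        rw [Polynomial.eval_eq_sum_range, Finset.sum_range_succ] at h1
        simp only [Pi.smul_apply, Pi.add_apply, Pi.sub_apply, Pi.pow_apply, Finset.sum_apply, smul_eq_mul]
        rw [h1]
        have : F.coeff F.natDegree = F.leadingCoeff := rfl
        rw [this]
        ring
      have hrel2 : mon F δ S n α = F.leadingCoeff⁻¹ •
          (mon F δ S n (β + Finsupp.single ⟨(i + 1) % n, Nat.mod_lt _ hn⟩ 1) +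
            δ • mon F δ S n (β + Finsupp.single ⟨(i + (n - 1)) % n, Nat.mod_lt _ hn⟩ 1) -
            ∑ j ∈ range F.natDegree, F.coeff j • mon F δ S n (β + Finsupp.single i j)) := by
        rw [hαβ]
        simp only [mon_add, mon_single, pow_one]
        have h2 : Yc F δ S i ^ F.natDegree = F.leadingCoeff⁻¹ • (Yc F δ S ((i + 1) % n) +
            δ • Yc F δ S ((i + (n - 1)) % n) - ∑ j ∈ range F.natDegree, F.coeff j • Yc F δ S i ^ j) := by
          rw [← hrel, smul_smul, inv_mul_cancel₀ hlead, one_smul]
        rw [h2]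
        ext P
        simp only [Pi.smul_apply, Pi.add_apply, Pi.sub_apply, Pi.mul_apply, Pi.pow_apply,
          Finset.sum_apply, smul_eq_mul]
        have h3 : ∑ j ∈ range F.natDegree, F.coeff j * (mon F δ S n β P * Yc F δ S i P ^ j) =
            mon F δ S n β P * ∑ j ∈ range F.natDegree, F.coeff j * Yc F δ S i P ^ j := by
          rw [Finset.mul_sum]
          apply Finset.sum_congr rfl
          intro j _; ring
        rw [h3]; ring
      rw [hrel2]
      apply Submodule.smul_mem
      apply Submodule.sub_mem
      · apply Submodule.add_mem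
        · apply ih; rw [dg_add, dg_single]; omega
        · apply Submodule.smul_mem
          apply ih; rw [dg_add, dg_single]; omega
      · apply Submodule.sum_mem
        intro j hj
        apply Submodule.smul_mem
        have := mem_range.1 hj
        apply ih; rw [dg_add, dg_single]; omega

/-- A Hénon map of degree `d` has at most `d ^ n` points with `f^n(P) = P`. -/
theorem card_periodic_le (hn : 0 < n) (hd : 2 ≤ F.natDegree) (hS : ∀ P ∈ S, (hen F δ)^[n] P = P) :
    S.card ≤ F.natDegree ^ n := by
  classical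
  let Φ : MvPolynomial (Fin n) k →ₐ[k] (S → k) := MvPolynomial.aeval fun i => Yc F δ S i
  have hΦ : ∀ g, Φ g ∈ Submodule.span k (Set.range (sm F δ S n F.natDegree)) := by
    intro g
    rw [MvPolynomial.as_sum g, map_sum]
    apply Submodule.sum_mem
    intro α _
    have h1 : Φ (MvPolynomial.monomial α (MvPolynomial.coeff α g)) = MvPolynomial.coeff α g • mon F δ S n α := by
      simp only [Φ, MvPolynomial.aeval_monomial, mon, Algebra.smul_def]
    rw [h1]
    exact Submodule.smul_mem _ _ (mon_mem F δ S n hn hd hS _ α le_rfl)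
  have hY : ∀ t, Yc F δ S t ∈ Φ.range := by
    intro t
    rw [← Yc_mod F δ S n hS t]
    exact ⟨MvPolynomial.X ⟨t % n, Nat.mod_lt _ hn⟩, by simp [Φ]⟩
  -- separation of points
  have hsep : ∀ P Q : S, P ≠ Q → ∃ g ∈ Φ.range, g P = 1 ∧ g Q = 0 := by
    intro P Q hPQ
    have key : ∀ t, Yc F δ S t P ≠ Yc F δ S t Q → ∃ g ∈ Φ.range, g P = 1 ∧ g Q = 0 := by
      intro t ht
      refine ⟨(Yc F δ S t P - Yc F δ S t Q)⁻¹ • (Yc F δ S t - algebraMap k (S → k) (Yc F δ S t Q)), ?_, ?_, ?_⟩
      · exact Subalgebra.smul_mem _ (Subalgebra.sub_mem _ (hY t) (Subalgebra.algebraMap_mem _ _)) _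
      · simp [sub_ne_zero.2 ht]
      · simp
    by_cases h0 : Yc F δ S 0 P = Yc F δ S 0 Q
    · apply key 1
      intro h1
      apply hPQ
      apply Subtype.ext
      apply Prod.ext
      · exact h0
      · exact h1
    · exact key 0 h0
  choose! g hg1 hg2 hg3 using hsep
  have htop : ∀ f : S → k, f ∈ Φ.range := by
    intro f
    have h1 : ∀ P : S, (Pi.single P (1 : k) : S → k) ∈ Φ.range := by
      intro P
      have h2 : (Pi.single P (1 : k) : S → k) = ∏ Q ∈ univ.erase P, g P Q := by
        ext R
        rw [Finset.prod_apply]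
        by_cases hR : R = P
        · subst hR
          rw [Pi.single_eq_same]
          symm
          apply Finset.prod_eq_one
          intro Q hQ
          exact hg2 R Q (Finset.ne_of_mem_erase hQ).symm
        · rw [Pi.single_eq_of_ne hR]
          symm
          apply Finset.prod_eq_zero (i := R) (by simp [hR])
          exact hg3 P R (Ne.symm hR)
      rw [h2]
      apply Subalgebra.prod_mem
      intro Q hQ
      exact hg1 P Q (Finset.ne_of_mem_erase hQ).symm
    have h3 : f = ∑ P : S, f P • (Pi.single P (1 : k) : S → k) := by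
      ext R
      simp [Finset.sum_apply, Pi.single_apply]
    rw [h3]
    apply Subalgebra.sum_mem
    intro P _
    exact Subalgebra.smul_mem _ (h1 P) _
  have hspan : Submodule.span k (Set.range (sm F δ S n F.natDegree)) = ⊤ := by
    rw [eq_top_iff]
    intro f _
    obtain ⟨x, rfl⟩ := htop f
    exact hΦ x
  have h1 : Module.finrank k (S → k) = S.card := by
    rw [Module.finrank_fintype_fun_eq_card, Fintype.card_coe]
  have h2 := finrank_range_le_card (R := k) (sm F δ S n F.natDegree)
  rw [Set.finrank, hspan, finrank_top, h1, Fintype.card_fun, Fintype.card_fin, Fintype.card_fin] at h2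
  exact h2

end count

end Pool.Agent.H504D
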