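import Pool.Agent.H16.LF.L.HD4

/-!
# Periodic sequences without large members
-/

set_option autoImplicit false

namespace Pool.Agent.Q195.HD

open Module Polynomial

variable {L : Type*} [Field L] {w : AbsoluteValue L ℝ}

/-- the universal period -/
def per (p N : ℕ) : ℕ := (((p ^ 2) ^ N) ^ 2).factorial * (((p ^ 2) ^ N) ^ 2).factorial

lemma per_pos (p N : ℕ) : 0 < per p N := Nat.mul_pos (Nat.factorial_pos _) (Nat.factorial_pos _)

theorem integral_period (hna : IsNonarchimedean w) [CharZero L] [Algebra ℚ L]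
    [FiniteDimensional ℚ L] (N : ℕ) (hN : finrank ℚ L ≤ N) {p : ℕ} (hp : p.Prime)
    (hwp : w (p : L) < 1) (G : (OO w hna)[X]) (δ : OO w hna) {n : ℕ} [NeZero n]
    (u : ZMod n → OO w hna) (hrec : ∀ t, u (t + 1) + δ * u (t - 1) = G.eval (u t)) :
    ∀ t, u (t + ((per p N : ℕ) : ZMod n)) = u t := by
  classical
  obtain ⟨hfin, hcard⟩ := quot_card hna N hN (p ^ 2) (Nat.one_le_pow _ _ hp.pos)
  set c := ((p ^ 2) ^ N) ^ 2 with hc
  have hcc : Nat.card (OO w hna ⧸ Ideal.span {((p ^ 2 : ℕ) : OO w hna)}) ^ 2 ≤ c :=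
    Nat.pow_le_pow_left hcard 2
  let P : ℕ → Prop := fun j => ∀ t, u (t + ((c.factorial * c.factorial * j : ℕ) : ZMod n)) = u t
  have hn : 0 < n := Nat.pos_of_ne_zero (NeZero.ne n)
  have hex : ∃ j, 0 < j ∧ P j := by
    refine ⟨n, hn, fun t => ?_⟩
    have : ((c.factorial * c.factorial * n : ℕ) : ZMod n) = 0 := by push_cast; simp
    rw [this, add_zero]
  obtain ⟨hj0, hjP⟩ := Nat.find_spec hex
  set j := Nat.find hex with hj
  have hj1 : j = 1 := by
    by_contra hne
    have hℓ := Nat.minFac_prime hne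
    set ℓ := j.minFac
    obtain ⟨i, hi⟩ := Nat.minFac_dvd j
    have hi' : j = ℓ * i := hi
    have hi0 : 0 < i := by
      rcases Nat.eq_zero_or_pos i with h | h
      · rw [h, mul_zero] at hi'; omega
      · exact h
    have hij : i < j := by
      rw [hi']
      calc i = 1 * i := (one_mul i).symm
        _ < ℓ * i := Nat.mul_lt_mul_of_pos_right hℓ.one_lt hi0
    apply Nat.find_min hex hij
    refine ⟨hi0, ?_⟩
    refine no_prime_shift hna hp hwp c hcc G δ u hrec i ℓ hℓ fun t => ?_
    have := hjP t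
    rw [hi'] at this
    have e : (ℓ : ZMod n) * ((c.factorial * c.factorial * i : ℕ) : ZMod n) =
        ((c.factorial * c.factorial * (ℓ * i) : ℕ) : ZMod n) := by push_cast; ring
    rw [e]
    exact this
  intro t
  have := hjP t
  rw [hj1, mul_one] at this
  exact this

theorem small_period_aux (hna : IsNonarchimedean w) [CharZero L] [Algebra ℚ L]
    [FiniteDimensional ℚ L] (N : ℕ) (hN : finrank ℚ L ≤ N) {p : ℕ} (hp : p.Prime)
    (hwp : w (p : L) < 1) {F : L[X]} {δ : L} (hδ : w δ ≤ 1) {n : ℕ} [NeZero n] (y : ZMod n → L)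
    (hrec : ∀ t, y (t + 1) + δ * y (t - 1) = F.eval (y t))
    (hF : ∀ t, ∀ k, 1 ≤ k → k ≤ F.natDegree → w (F.coeff k) * w (y t) ^ (k - 1) ≤ 1) :
    ∀ t, y (t + ((per p N : ℕ) : ZMod n)) = y t := by
  classical
  obtain ⟨t0, ht0⟩ := Finite.exists_max fun t : ZMod n => w (y t)
  by_cases h0 : y t0 = 0
  · have : ∀ t, y t = 0 := by
      intro t
      have h1 := ht0 t
      simp only [h0, map_zero] at h1
      exact (map_eq_zero w).1 (le_antisymm h1 (w.nonneg _))
    intro t
    rw [this, this]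
  set c := y t0 with hc
  have hc0 : 0 < w c := w.pos h0
  have hu : ∀ t, w (y t / c) ≤ 1 := by
    intro t
    rw [map_div₀, div_le_one hc0]
    exact ht0 t
  let F' : L[X] := C c⁻¹ * F.comp (C c * X)
  have hcoeff : ∀ k, F'.coeff k = c⁻¹ * (F.coeff k * c ^ k) := by
    intro k
    show (C c⁻¹ * F.comp (C c * X)).coeff k = _
    rw [coeff_C_mul, comp_C_mul_X_coeff]
  have heval : ∀ x, F'.eval (x / c) = F.eval x / c := by
    intro x
    show (C c⁻¹ * F.comp (C c * X)).eval (x / c) = _
    rw [eval_mul, eval_C, eval_comp, eval_mul, eval_C, eval_X, mul_div_cancel₀ x h0,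
      div_eq_inv_mul]
  have hposc : ∀ k, 1 ≤ k → w (F'.coeff k) ≤ 1 := by
    intro k hk
    rw [hcoeff]
    by_cases hkd : k ≤ F.natDegree
    · have e : c⁻¹ * (F.coeff k * c ^ k) = F.coeff k * c ^ (k - 1) := by
        obtain ⟨k', rfl⟩ : ∃ k', k = k' + 1 := ⟨k - 1, by omega⟩
        rw [Nat.add_sub_cancel, pow_succ]
        field_simp
      rw [e, map_mul, map_pow]
      exact hF t0 k hk hkd
    · rw [coeff_eq_zero_of_natDegree_lt (not_le.1 hkd)]
      simp
  have hrec' : ∀ t, y (t + 1) / c + δ * (y (t - 1) / c) = F'.eval (y t / c) := by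
    intro t
    rw [heval, ← hrec]
    ring
  have h0c : w (F'.coeff 0) ≤ 1 := by
    have h1 : F'.coeff 0 = F'.eval (y t0 / c) -
        ∑ k ∈ Finset.range F'.natDegree, F'.coeff (k + 1) * (y t0 / c) ^ (k + 1) := by
      rw [eval_eq_sum_range, Finset.sum_range_succ']
      simp
    rw [h1, ← hrec']
    refine (w_sub_le hna _ _).trans (max_le ?_ ?_)
    · refine (hna _ _).trans (max_le (hu _) ?_)
      rw [map_mul]
      calc w δ * w (y (t0 - 1) / c) ≤ 1 * 1 := mul_le_mul hδ (hu _) (w.nonneg _) zero_le_one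
        _ = 1 := one_mul 1
    · refine w_sum_le hna _ _ _ zero_le_one fun k _ => ?_
      rw [map_mul, map_pow]
      calc w (F'.coeff (k + 1)) * w (y t0 / c) ^ (k + 1) ≤ 1 * 1 :=
            mul_le_mul (hposc _ (by omega)) (pow_le_one₀ (w.nonneg _) (hu _))
              (pow_nonneg (w.nonneg _) _) zero_le_one
        _ = 1 := one_mul 1
  have hall : (↑F'.coeffs : Set L) ⊆ (OO w hna : Set L) := by
    intro x hx
    rw [Finset.mem_coe, Polynomial.mem_coeffs_iff] at hx
    obtain ⟨k, -, rfl⟩ := hx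
    rcases Nat.eq_zero_or_pos k with h | h
    · rw [h]; exact h0c
    · exact hposc k h
  let G : (OO w hna)[X] := F'.toSubring (OO w hna) hall
  have hG : G.map (OO w hna).subtype = F' := Polynomial.map_toSubring _ _ _
  let u : ZMod n → OO w hna := fun t => ⟨y t / c, hu t⟩
  have hmain := integral_period hna N hN hp hwp G ⟨δ, hδ⟩ u (by
    intro t
    apply Subtype.ext
    have e : ((G.eval (u t) : OO w hna) : L) = F'.eval (y t / c) := by
      rw [← hG, eval_map]
      exact (Polynomial.eval₂_hom (OO w hna).subtype (u t)).symm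
    rw [e]
    exact hrec' t)
  intro t
  have h1 := congrArg (fun x : OO w hna => (x : L)) (hmain t)
  simp only [u] at h1
  field_simp at h1
  exact h1

theorem small_period (hna : IsNonarchimedean w) [CharZero L] [Algebra ℚ L]
    [FiniteDimensional ℚ L] (N : ℕ) (hN : finrank ℚ L ≤ N) {p : ℕ} (hp : p.Prime)
    (hwp : w (p : L) < 1) {F : L[X]} {δ : L} (hmid : Mid w F δ) (hd2 : 2 ≤ F.natDegree)
    {n : ℕ} [NeZero n] (y : ZMod n → L)
    (hrec : ∀ t, y (t + 1) + δ * y (t - 1) = F.eval (y t))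
    (hsm : ∀ t, w F.leadingCoeff * w (y t) ^ (F.natDegree - 1) ≤ max 1 (w δ)) :
    ∀ t, y (t + ((per p N : ℕ) : ZMod n)) = y t := by
  have hdom := fun t k h1 h2 => dom_le hmid hd2 (w.nonneg (y t)) (hsm t) k h1 h2
  rcases le_or_gt (w δ) 1 with hδ | hδ
  · refine small_period_aux hna N hN hp hwp hδ y hrec fun t k h1 h2 => ?_
    have := hdom t k h1 h2
    rwa [max_eq_left hδ] at this
  · have hδ0 : δ ≠ 0 := by
      rintro rfl
      rw [map_zero] at hδ
      linarith
    have hδ1 : w δ⁻¹ ≤ 1 := by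
      rw [map_inv₀]
      exact inv_le_one_of_one_le₀ hδ.le
    have hdeg : (C δ⁻¹ * F).natDegree = F.natDegree := natDegree_C_mul (inv_ne_zero hδ0)
    have key := small_period_aux hna N hN hp hwp (F := C δ⁻¹ * F) (δ := δ⁻¹) hδ1
      (fun t => y (-t)) (fun t => by
        have h1 := hrec (-t)
        rw [eval_mul, eval_C, ← h1]
        have e1 : -(t + 1) = -t - 1 := by ring
        have e2 : -(t - 1) = -t + 1 := by ring
        rw [e1, e2]
        field_simp
        ring) (fun t k h1 h2 => by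
        rw [hdeg] at h2
        have h3 := hdom (-t) k h1 h2
        rw [max_eq_right hδ.le] at h3
        rw [coeff_C_mul, map_mul, map_inv₀, mul_assoc, inv_mul_le_iff₀ (by linarith), mul_one]
        exact h3)
    intro t
    have h1 := key (-t - ((per p N : ℕ) : ZMod n))
    simp only [sub_add_cancel, neg_neg, neg_sub, sub_neg_eq_add] at h1
    rw [h1, add_comm]

end Pool.Agent.Q195.HD
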