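import Pool.Agent.H16.LF.L.HD5
import Pool.Agent.H16.LF.L.HenonCount

/-!
# Hénon maps with dominated middle coefficients
-/

set_option autoImplicit false

namespace Pool.Agent.Q195.HD

open Module Polynomial Function Pool.Agent.H504D

section seqs

variable {k : Type} [Field k] (F : k[X]) (δ : k)

/-- the sequence of the coordinates of the orbit of a periodic point -/
noncomputable def sq (P : k × k) (n : ℕ) : ZMod n → k := fun t => ((hen F δ)^[t.val] P).1

variable {F δ}

lemma sq_nat {P : k × k} {n : ℕ} (hP : (hen F δ)^[n] P = P) (i : ℕ) :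
    sq F δ P n (i : ZMod n) = ((hen F δ)^[i] P).1 := by
  unfold sq
  rw [ZMod.val_natCast]
  have : IsPeriodicPt (hen F δ) n P := hP
  rw [this.iterate_mod_apply]

lemma hen_succ_fst (P : k × k) (i : ℕ) :
    ((hen F δ)^[i + 1] P).1 = ((hen F δ)^[i] P).2 := by
  rw [iterate_succ_apply']; rfl

lemma hen_rec (P : k × k) (i : ℕ) : ((hen F δ)^[i + 2] P).1 =
    F.eval ((hen F δ)^[i + 1] P).1 - δ * ((hen F δ)^[i] P).1 := by
  simp only [iterate_succ_apply']
  rfl

lemma sq_rec {P : k × k} {n : ℕ} [NeZero n] (hP : (hen F δ)^[n] P = P) (t : ZMod n) :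
    sq F δ P n (t + 1) + δ * sq F δ P n (t - 1) = F.eval (sq F δ P n t) := by
  have hn : 0 < n := Nat.pos_of_ne_zero (NeZero.ne n)
  set i := t.val + (n - 1) with hi
  have e0 : (i : ZMod n) = t - 1 := by
    rw [hi]
    push_cast [Nat.cast_pred hn]
    rw [ZMod.natCast_self, ZMod.natCast_zmod_val]
    ring
  have e1 : ((i + 1 : ℕ) : ZMod n) = t := by push_cast; rw [e0]; ring
  have e2 : ((i + 2 : ℕ) : ZMod n) = t + 1 := by push_cast; rw [e0]; ring
  have h := hen_rec (F := F) (δ := δ) P i
  rw [← sq_nat hP, ← sq_nat hP, ← sq_nat hP, e0, e1, e2] at h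
  rw [h]
  ring

lemma hen_map {k' : Type} [Field k'] (ι : k →+* k') (P : k × k) (t : ℕ) :
    Prod.map ι ι ((hen F δ)^[t] P) = (hen (F.map ι) (ι δ))^[t] (Prod.map ι ι P) := by
  induction t with
  | zero => rfl
  | succ t ih =>
    rw [iterate_succ_apply', iterate_succ_apply', ← ih]
    unfold hen
    simp [Polynomial.eval_map]

end seqs

section points

variable {L : Type} [Field L] {w : AbsoluteValue L ℝ}

theorem small_points (hna : IsNonarchimedean w) [CharZero L] [Algebra ℚ L]
    [FiniteDimensional ℚ L] (N : ℕ) (hN : finrank ℚ L ≤ N) {p : ℕ} (hp : p.Prime)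
    (hwp : w (p : L) < 1) {F : L[X]} {δ : L} (hmid : Mid w F δ) (hd2 : 2 ≤ F.natDegree)
    {P : L × L} {n : ℕ} (hn : 0 < n) (hP : (hen F δ)^[n] P = P)
    (hsm : ∀ i : ℕ, w F.leadingCoeff * w ((hen F δ)^[i] P).1 ^ (F.natDegree - 1) ≤
      max 1 (w δ)) : (hen F δ)^[per p N] P = P := by
  have : NeZero n := ⟨hn.ne'⟩
  have h := small_period hna N hN hp hwp hmid hd2 (sq F δ P n) (fun t => sq_rec hP t)
    (fun t => hsm _)
  have h0 := h ((0 : ℕ) : ZMod n)
  have h1 := h ((1 : ℕ) : ZMod n)
  rw [← Nat.cast_add, sq_nat hP, sq_nat hP, zero_add] at h0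
  rw [← Nat.cast_add, sq_nat hP, sq_nat hP, add_comm 1, hen_succ_fst, hen_succ_fst 
    (P := P) (i := 0)] at h1
  exact Prod.ext h0 h1

theorem large_points (hna : IsNonarchimedean w) [CharZero L] [Algebra ℚ L]
    [FiniteDimensional ℚ L] (N : ℕ) (hN : finrank ℚ L ≤ N) {p : ℕ} (hp : p.Prime)
    (hwp : w (p : L) < 1) {F : L[X]} {δ : L} (hmid : Mid w F δ) (hd2 : 2 ≤ F.natDegree)
    (hpd : Nat.Coprime F.natDegree p)
    (hcop : ∀ f, 1 ≤ f → f ≤ N → Nat.Coprime F.natDegree (p ^ f - 1))
    {P Q : L × L} {n m : ℕ} (hn : 0 < n) (hP : (hen F δ)^[n] P = P) (hm : 0 < m)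
    (hQ : (hen F δ)^[m] Q = Q) (i : ℕ)
    (hl : max 1 (w δ) < w F.leadingCoeff * w ((hen F δ)^[i] P).1 ^ (F.natDegree - 1)) :
    P = Q := by
  have hnm : NeZero (n * m) := ⟨(Nat.mul_pos hn hm).ne'⟩
  have hP' : (hen F δ)^[n * m] P = P := by
    have h : IsPeriodicPt (hen F δ) n P := hP
    exact h.mul_const m
  have hQ' : (hen F δ)^[n * m] Q = Q := by
    have h : IsPeriodicPt (hen F δ) m Q := hQ
    exact h.const_mul n
  have h := large_unique hna hmid hd2 (w_coprime hna hwp hpd)
    (one_root hna N hN hp hwp F.natDegree hcop) (sq F δ P (n * m)) (sq F δ Q (n * m))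
    (fun t => sq_rec hP' t) (fun t => sq_rec hQ' t) ((i : ℕ) : ZMod (n * m))
    (by rw [sq_nat hP']; exact hl)
  have h0 := congrFun h ((0 : ℕ) : ZMod (n * m))
  have h1 := congrFun h ((1 : ℕ) : ZMod (n * m))
  rw [sq_nat hP', sq_nat hQ'] at h0
  rw [sq_nat hP', sq_nat hQ', hen_succ_fst (P := P) (i := 0), hen_succ_fst (P := Q) (i := 0)] at h1
  exact Prod.ext h0 h1

end points

/-- restriction of an absolute value along a homomorphism of fields -/
noncomputable def res {Ω L : Type} [Field Ω] [Field L] (w : AbsoluteValue Ω ℝ) (ι : L →+* Ω) :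
    AbsoluteValue L ℝ where
  toFun x := w (ι x)
  map_mul' x y := by rw [map_mul, map_mul]
  nonneg' x := w.nonneg _
  eq_zero' x := by rw [map_eq_zero, map_eq_zero]
  add_le' x y := by rw [map_add]; exact w.add_le _ _

lemma res_apply {Ω L : Type} [Field Ω] [Field L] (w : AbsoluteValue Ω ℝ) (ι : L →+* Ω) (x : L) :
    res w ι x = w (ι x) := rfl

lemma res_na {Ω L : Type} [Field Ω] [Field L] {w : AbsoluteValue Ω ℝ} (ι : L →+* Ω)
    (hna : IsNonarchimedean w) : IsNonarchimedean (res w ι) := by
  intro x y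
  rw [res_apply, map_add]
  exact hna _ _

lemma res_mid {Ω L : Type} [Field Ω] [Field L] {w : AbsoluteValue Ω ℝ} (ι : L →+* Ω) {F : L[X]}
    {δ : L} (h : Mid w (F.map ι) (ι δ)) : Mid (res w ι) F δ := by
  intro k h1 h2
  have := h k h1 (by rwa [natDegree_map])
  rw [natDegree_map, leadingCoeff_map, coeff_map] at this
  exact this

/-- The bound over an algebraic extension of a number field. -/
theorem global (D B d p : ℕ) (hd : 2 ≤ d) (hp : p.Prime) (hpd : Nat.Coprime d p)
    (hcop : ∀ f, 1 ≤ f → f ≤ D * B ^ 2 → Nat.Coprime d (p ^ f - 1))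
    (K Ω : Type) [Field K] [NumberField K] (hK : finrank ℚ K ≤ D) [Field Ω] [Algebra K Ω]
    [Algebra.IsAlgebraic K Ω] (w : AbsoluteValue Ω ℝ) (hna : IsNonarchimedean w)
    (hwp : w (p : Ω) < 1) (F : K[X]) (δ : K) (hF : F.natDegree = d)
    (hmid : Mid w (F.map (algebraMap K Ω)) (algebraMap K Ω δ)) (S : Finset (Ω × Ω))
    (hS : ∀ P ∈ S, (∃ n : ℕ, 0 < n ∧ (hen (F.map (algebraMap K Ω)) (algebraMap K Ω δ))^[n] P = P) ∧
      finrank K (IntermediateField.adjoin K {P.1, P.2}) ≤ B) :
    S.card ≤ d ^ per p (D * B) := by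
  classical
  set φ := algebraMap K Ω with hφ
  have hdeg : (F.map φ).natDegree = d := by rw [natDegree_map, hF]
  have hfd : ∀ P : Ω × Ω, FiniteDimensional K (IntermediateField.adjoin K ({P.1, P.2} : Set Ω)) := by
    intro P
    apply IntermediateField.finiteDimensional_adjoin
    intro x _
    exact Algebra.IsIntegral.isIntegral x
  -- descent of a point to an intermediate field
  have hdesc : ∀ (L : IntermediateField K Ω) (P : Ω × Ω), P.1 ∈ L → P.2 ∈ L →
      ∃ P' : L × L, Prod.map (algebraMap L Ω) (algebraMap L Ω) P' = P := fun L P h1 h2 =>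
    ⟨(⟨P.1, h1⟩, ⟨P.2, h2⟩), rfl⟩
  have hFL : ∀ L : IntermediateField K Ω, (F.map (algebraMap K L)).map (algebraMap L Ω) = F.map φ := by
    intro L
    rw [Polynomial.map_map]
    rfl
  have hinj : ∀ L : IntermediateField K Ω, Function.Injective
      (Prod.map (algebraMap L Ω) (algebraMap L Ω)) := fun L =>
    Function.Injective.prodMap (algebraMap L Ω).injective (algebraMap L Ω).injective
  have hiter : ∀ (L : IntermediateField K Ω) (P' : L × L) (i : ℕ),
      Prod.map (algebraMap L Ω) (algebraMap L Ω)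
        ((hen (F.map (algebraMap K L)) (algebraMap K L δ))^[i] P') =
      (hen (F.map φ) (φ δ))^[i] (Prod.map (algebraMap L Ω) (algebraMap L Ω) P') := by
    intro L P' i
    rw [hen_map, hFL]
    rfl
  by_cases hlarge : ∃ P ∈ S, ∃ i : ℕ, max 1 (w (φ δ)) < w (F.map φ).leadingCoeff *
      w ((hen (F.map φ) (φ δ))^[i] P).1 ^ ((F.map φ).natDegree - 1)
  · obtain ⟨P, hPS, i, hl⟩ := hlarge
    have hall : ∀ Q ∈ S, P = Q := by
      intro Q hQS
      obtain ⟨⟨n, hn, hP⟩, hPB⟩ := hS P hPS
      obtain ⟨⟨m, hm, hQ⟩, hQB⟩ := hS Q hQS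
      let L : IntermediateField K Ω := IntermediateField.adjoin K ({P.1, P.2} : Set Ω) ⊔
        IntermediateField.adjoin K ({Q.1, Q.2} : Set Ω)
      have hLfd : FiniteDimensional K L := by
        have := hfd P
        have := hfd Q
        infer_instance
      have hLQ : FiniteDimensional ℚ L := FiniteDimensional.trans ℚ K L
      have hLdeg : finrank ℚ L ≤ D * B ^ 2 := by
        rw [← Module.finrank_mul_finrank ℚ K L]
        refine Nat.mul_le_mul hK ?_
        calc finrank K L ≤ _ := IntermediateField.finrank_sup_le _ _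
          _ ≤ B * B := Nat.mul_le_mul hPB hQB
          _ = B ^ 2 := (pow_two B).symm
      have hsub1 : ∀ x ∈ ({P.1, P.2} : Set Ω), x ∈ L := fun x hx =>
        (le_sup_left : _ ≤ L) (IntermediateField.subset_adjoin K _ hx)
      have hsub2 : ∀ x ∈ ({Q.1, Q.2} : Set Ω), x ∈ L := fun x hx =>
        (le_sup_right : _ ≤ L) (IntermediateField.subset_adjoin K _ hx)
      obtain ⟨P', hP'⟩ := hdesc L P (hsub1 _ (by simp)) (hsub1 _ (by simp))
      obtain ⟨Q', hQ'⟩ := hdesc L Q (hsub2 _ (by simp)) (hsub2 _ (by simp))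
      have hw : ∀ x : L, res w (algebraMap L Ω) x = w (algebraMap L Ω x) := fun x => rfl
      have hmidL : Mid (res w (algebraMap L Ω)) (F.map (algebraMap K L)) (algebraMap K L δ) := by
        apply res_mid
        rw [hFL]
        exact hmid
      have hdegL : (F.map (algebraMap K L)).natDegree = d := by rw [natDegree_map, hF]
      have := large_points (res_na (algebraMap L Ω) hna) (D * B ^ 2) hLdeg hp
        (by rw [hw, map_natCast]; exact hwp) hmidL (by rw [hdegL]; exact hd)
        (by rw [hdegL]; exact hpd) (by rw [hdegL]; exact hcop) (P := P') (Q := Q') hn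
        (hinj L (by rw [hiter, hP', hP])) hm (hinj L (by rw [hiter, hQ', hQ])) i (by
          have e1 : ((hen (F.map φ) (φ δ))^[i] P).1 = algebraMap L Ω
              ((hen (F.map (algebraMap K L)) (algebraMap K L δ))^[i] P').1 := by
            rw [← hP', ← hiter]; rfl
          have e2 : (F.map φ).leadingCoeff =
              algebraMap L Ω (F.map (algebraMap K L)).leadingCoeff := by
            rw [← hFL L, leadingCoeff_map]
          rw [e1, e2, hdeg] at hl
          rw [hdegL]
          exact hl)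
      rw [← hP', ← hQ', this]
    have h1 : S.card ≤ 1 := by
      rw [Finset.card_le_one]
      intro a ha b hb
      rw [← hall a ha, ← hall b hb]
    exact h1.trans (Nat.one_le_pow _ _ (by omega))
  · push Not at hlarge
    have hfix : ∀ P ∈ S, (hen (F.map φ) (φ δ))^[per p (D * B)] P = P := by
      intro P hPS
      obtain ⟨⟨n, hn, hP⟩, hPB⟩ := hS P hPS
      let L : IntermediateField K Ω := IntermediateField.adjoin K ({P.1, P.2} : Set Ω)
      have hLfd : FiniteDimensional K L := hfd P
      have hLQ : FiniteDimensional ℚ L := FiniteDimensional.trans ℚ K L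
      have hLdeg : finrank ℚ L ≤ D * B := by
        rw [← Module.finrank_mul_finrank ℚ K L]
        exact Nat.mul_le_mul hK hPB
      obtain ⟨P', hP'⟩ := hdesc L P (IntermediateField.subset_adjoin K _ (by simp))
        (IntermediateField.subset_adjoin K _ (by simp))
      have hw : ∀ x : L, res w (algebraMap L Ω) x = w (algebraMap L Ω x) := fun x => rfl
      have hmidL : Mid (res w (algebraMap L Ω)) (F.map (algebraMap K L)) (algebraMap K L δ) := by
        apply res_mid
        rw [hFL]
        exact hmid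
      have hdegL : (F.map (algebraMap K L)).natDegree = d := by rw [natDegree_map, hF]
      have := small_points (res_na (algebraMap L Ω) hna) (D * B) hLdeg hp
        (by rw [hw, map_natCast]; exact hwp) hmidL (by rw [hdegL]; exact hd) (P := P') hn
        (hinj L (by rw [hiter, hP', hP])) (fun i => by
          have h := hlarge P hPS i
          have e1 : ((hen (F.map φ) (φ δ))^[i] P).1 = algebraMap L Ω
              ((hen (F.map (algebraMap K L)) (algebraMap K L δ))^[i] P').1 := by
            rw [← hP', ← hiter]; rfl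
          have e2 : (F.map φ).leadingCoeff =
              algebraMap L Ω (F.map (algebraMap K L)).leadingCoeff := by
            rw [← hFL L, leadingCoeff_map]
          rw [e1, e2, hdeg] at h
          rw [hdegL]
          exact h)
      rw [← hP', ← hiter, this]
    have := card_periodic_le (F.map φ) (φ δ) S (per p (D * B)) (per_pos _ _)
      (by rw [hdeg]; exact hd) hfix
    rwa [hdeg] at this

end Pool.Agent.Q195.HD
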